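import Mathlib
import Pool.Agent.helper70.M9.ChkG

set_option autoImplicit false

/-! # OCT9-G3: sizes of the tables used by the tests of a column -/

namespace Oct

/-! ## cons lemmas -/

theorem g3_absP_cons (c : ℤ) (l : List ℤ) (x : ℕ) :
    absP (c :: l) x = c.natAbs + x * absP l x := rfl

theorem g3_absT_cons (l : List ℤ) (G : List (List ℤ)) (t u : ℕ) :
    absT (l :: G) t u = absP l t + u * absT G t u := rfl

theorem g3_absP_nil (x : ℕ) : absP [] x = 0 := rfl

theorem g3_absT_nil (t u : ℕ) : absT [] t u = 0 := rfl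

/-! ## multiples and sums -/

theorem g3_absP_smul (k : ℤ) (l : List ℤ) (x : ℕ) :
    absP (smulP k l) x = k.natAbs * absP l x := by
  induction l with
  | nil => simp [smulP, g3_absP_nil]
  | cons c l ih =>
    change absP (k * c :: smulP k l) x = _
    rw [g3_absP_cons, ih, g3_absP_cons, Int.natAbs_mul]
    ring

theorem g3_absT_smul (k : ℤ) (G : List (List ℤ)) (t u : ℕ) :
    absT (G.map (smulP k)) t u = k.natAbs * absT G t u := by
  induction G with
  | nil => simp [g3_absT_nil]
  | cons l G ih =>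
    rw [List.map_cons, g3_absT_cons, ih, g3_absT_cons, g3_absP_smul]
    ring

theorem g3_absP_add (p q : List ℤ) (x : ℕ) : absP (addP p q) x ≤ absP p x + absP q x := by
  induction p generalizing q with
  | nil => simp [addP, g3_absP_nil]
  | cons a p ih =>
    cases q with
    | nil => simp [addP, g3_absP_nil]
    | cons b q =>
      change absP ((a + b) :: addP p q) x ≤ _
      rw [g3_absP_cons, g3_absP_cons, g3_absP_cons]
      have h1 := Int.natAbs_add_le a b
      have h2 := Nat.mul_le_mul_left x (ih q)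
      rw [Nat.mul_add] at h2
      omega

theorem g3_absT_add (p q : List (List ℤ)) (t u : ℕ) :
    absT (addT p q) t u ≤ absT p t u + absT q t u := by
  induction p generalizing q with
  | nil => simp [addT, g3_absT_nil]
  | cons a p ih =>
    cases q with
    | nil => simp [addT, g3_absT_nil]
    | cons b q =>
      change absT (addP a b :: addT p q) t u ≤ _
      rw [g3_absT_cons, g3_absT_cons, g3_absT_cons]
      have h1 := g3_absP_add a b t
      have h2 := Nat.mul_le_mul_left u (ih q)
      rw [Nat.mul_add] at h2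
      omega

/-! ## derivatives -/

theorem g3_derP_abs (M : ℕ) (l : List ℤ) (k x : ℕ) (h : k + l.length ≤ M + 1) :
    absP (derP k l) x ≤ M * absP l x := by
  induction l generalizing k with
  | nil => simp [derP, g3_absP_nil]
  | cons c l ih =>
    simp only [List.length_cons] at h
    change absP ((k : ℤ) * c :: derP (k + 1) l) x ≤ _
    rw [g3_absP_cons, g3_absP_cons, Int.natAbs_mul, Int.natAbs_natCast]
    have h1 := ih (k + 1) (by omega)
    calc k * c.natAbs + x * absP (derP (k + 1) l) x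
        ≤ M * c.natAbs + x * (M * absP l x) :=
          Nat.add_le_add (Nat.mul_le_mul_right _ (by omega)) (Nat.mul_le_mul_left _ h1)
      _ = M * (c.natAbs + x * absP l x) := by ring

theorem g3_derT_abs (M : ℕ) (G : List (List ℤ)) (k t u : ℕ) (h : k + G.length ≤ M + 1) :
    absT (derT k G) t u ≤ M * absT G t u := by
  induction G generalizing k with
  | nil => simp [derT, g3_absT_nil]
  | cons l G ih =>
    simp only [List.length_cons] at h
    change absT (smulP (k : ℤ) l :: derT (k + 1) G) t u ≤ _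
    rw [g3_absT_cons, g3_absT_cons, g3_absP_smul, Int.natAbs_natCast]
    have h1 := ih (k + 1) (by omega)
    calc k * absP l t + u * absT (derT (k + 1) G) t u
        ≤ M * absP l t + u * (M * absT G t u) :=
          Nat.add_le_add (Nat.mul_le_mul_right _ (by omega)) (Nat.mul_le_mul_left _ h1)
      _ = M * (absP l t + u * absT G t u) := by ring

theorem g3_tail_abs (G : List (List ℤ)) (t u : ℕ) : u * absT G.tail t u ≤ absT G t u := by
  cases G with
  | nil => simp [g3_absT_nil]
  | cons l G => rw [List.tail_cons, g3_absT_cons]; omega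

theorem g3_tailP_abs (l : List ℤ) (x : ℕ) : x * absP l.tail x ≤ absP l x := by
  cases l with
  | nil => simp [g3_absP_nil]
  | cons c l => rw [List.tail_cons, g3_absP_cons]; omega

/-- `um absT (dU G) ≤ n absT G` -/
theorem g3_dU_mul {n : ℕ} {G : List (List ℤ)} (t u : ℕ) (h : G.length ≤ n + 1) :
    u * absT (dU G) t u ≤ n * absT G t u := by
  have h1 : absT (dU G) t u ≤ n * absT G.tail t u := by
    cases G with
    | nil => exact Nat.zero_le _
    | cons l G =>
      unfold dU
      rw [List.tail_cons]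
      simp only [List.length_cons] at h
      exact g3_derT_abs n G 1 t u (by omega)
  calc u * absT (dU G) t u ≤ u * (n * absT G.tail t u) := Nat.mul_le_mul_left _ h1
    _ = n * (u * absT G.tail t u) := by ring
    _ ≤ n * absT G t u := Nat.mul_le_mul_left _ (g3_tail_abs G t u)

/-- `absT (dU G) ≤ n absT G` -/
theorem g3_dU_abs {n : ℕ} {G : List (List ℤ)} (t u : ℕ) (hu : 1 ≤ u) (h : G.length ≤ n + 1) :
    absT (dU G) t u ≤ n * absT G t u :=
  (Nat.le_mul_of_pos_left _ hu).trans (g3_dU_mul t u h)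

/-- `absT (dT G) ≤ m absT G` -/
theorem g3_dT_abs {m : ℕ} {G : List (List ℤ)} (t u : ℕ) (ht : 1 ≤ t)
    (h : ∀ l ∈ G, l.length ≤ m + 1) : absT (dT G) t u ≤ m * absT G t u := by
  induction G with
  | nil => exact Nat.zero_le _
  | cons l G ih =>
    change absT (derP 1 l.tail :: dT G) t u ≤ _
    rw [g3_absT_cons, g3_absT_cons]
    have h1 := ih fun l' hl' => h l' (List.mem_cons_of_mem _ hl')
    have h2 : absP (derP 1 l.tail) t ≤ m * absP l t := by
      have h3 : absP (derP 1 l.tail) t ≤ m * absP l.tail t := by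
        have hl := h l List.mem_cons_self
        cases l with
        | nil => exact Nat.zero_le _
        | cons c l =>
          rw [List.tail_cons]
          simp only [List.length_cons] at hl
          exact g3_derP_abs m l 1 t (by omega)
      exact h3.trans (Nat.mul_le_mul_left _
        ((Nat.le_mul_of_pos_left _ ht).trans (g3_tailP_abs l t)))
    calc absP (derP 1 l.tail) t + u * absT (dT G) t u
        ≤ m * absP l t + u * (m * absT G t u) := Nat.add_le_add h2 (Nat.mul_le_mul_left _ h1)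
      _ = m * (absP l t + u * absT G t u) := by ring

/-- `absT (wT o k G) ≤ (4 n + k) absT G` -/
theorem g3_wT_abs {n : ℕ} {G : List (List ℤ)} (t u : ℕ) (o : ℤ) (k : ℕ) (ho : 0 ≤ o)
    (hou : o ≤ u) (h : G.length ≤ n + 1) :
    absT (wT o k G) t u ≤ (4 * n + k) * absT G t u := by
  unfold wT
  have h1 := g3_absT_add ([] :: (dU G).map (smulP 2))
    (addT ((dU G).map (smulP (-2 * o))) (G.map (smulP (-(k : ℤ))))) t u
  have h2 := g3_absT_add ((dU G).map (smulP (-2 * o))) (G.map (smulP (-(k : ℤ)))) t u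
  rw [g3_absT_smul, g3_absT_smul, Int.natAbs_neg, Int.natAbs_natCast] at h2
  rw [g3_absT_cons, g3_absP_nil, g3_absT_smul] at h1
  have h3 := g3_dU_mul (n := n) t u h
  have h4 : (-2 * o).natAbs ≤ 2 * u := by omega
  have h5 : (-2 * o).natAbs * absT (dU G) t u ≤ 2 * u * absT (dU G) t u :=
    Nat.mul_le_mul_right _ h4
  have e1 : 2 * u * absT (dU G) t u = 2 * (u * absT (dU G) t u) := by ring
  have e2 : u * (Int.natAbs 2 * absT (dU G) t u) = 2 * (u * absT (dU G) t u) := by
    change u * (2 * absT (dU G) t u) = _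
    ring
  rw [e2, Nat.zero_add] at h1
  rw [e1] at h5
  have e3 : (4 * n + k) * absT G t u = 4 * (n * absT G t u) + k * absT G t u := by ring
  rw [e3]
  omega

/-! ## vertical lines -/

theorem g3_absP_mono (l : List ℤ) {a b : ℕ} (h : a ≤ b) : absP l a ≤ absP l b := by
  induction l with
  | nil => exact le_rfl
  | cons c l ih =>
    rw [g3_absP_cons, g3_absP_cons]
    exact Nat.add_le_add_left (Nat.mul_le_mul h ih) _

theorem g3_evZ_abs (l : List ℤ) (a : ℕ) : (evZ l (a : ℤ)).natAbs ≤ absP l a := by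
  induction l with
  | nil => exact le_rfl
  | cons c l ih =>
    have h : evZ (c :: l) (a : ℤ) = c + a * evZ l a := rfl
    rw [h, g3_absP_cons]
    refine (Int.natAbs_add_le _ _).trans ?_
    rw [Int.natAbs_mul, Int.natAbs_natCast]
    exact Nat.add_le_add_left (Nat.mul_le_mul_left _ ih) _

/-- `absT (atT G a) 1 um ≤ absT G tm um` -/
theorem g3_atT_abs (G : List (List ℤ)) {a tm : ℕ} (um : ℕ) (h : a ≤ tm) :
    absT (atT G (a : ℤ)) 1 um ≤ absT G tm um := by
  induction G with
  | nil => exact le_rfl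
  | cons l G ih =>
    change absT ([evZ l a] :: atT G (a : ℤ)) 1 um ≤ _
    rw [g3_absT_cons, g3_absT_cons, g3_absP_cons, g3_absP_nil, Nat.mul_zero, Nat.add_zero]
    exact Nat.add_le_add ((g3_evZ_abs l a).trans (g3_absP_mono l h)) (Nat.mul_le_mul_left _ ih)

/-! ## lengths -/

theorem g3_derT_len (G : List (List ℤ)) (k : ℕ) : (derT k G).length = G.length := by
  induction G generalizing k with
  | nil => rfl
  | cons l G ih =>
    change (smulP (k : ℤ) l :: derT (k + 1) G).length = _
    rw [List.length_cons, ih, List.length_cons]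

theorem g3_derP_len (l : List ℤ) (k : ℕ) : (derP k l).length = l.length := by
  induction l generalizing k with
  | nil => rfl
  | cons c l ih =>
    change ((k : ℤ) * c :: derP (k + 1) l).length = _
    rw [List.length_cons, ih, List.length_cons]

theorem g3_derT_row {m : ℕ} (G : List (List ℤ)) (k : ℕ) (h : ∀ l ∈ G, l.length ≤ m) :
    ∀ l ∈ derT k G, l.length ≤ m := by
  induction G generalizing k with
  | nil => intro l hl; exact absurd hl List.not_mem_nil
  | cons l0 G ih =>
    intro l hl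
    change l ∈ (smulP (k : ℤ) l0 :: derT (k + 1) G) at hl
    rcases List.mem_cons.1 hl with hl | hl
    · rw [hl]
      unfold smulP
      rw [List.length_map]
      exact h l0 List.mem_cons_self
    · exact ih (k + 1) (fun l' hl' => h l' (List.mem_cons_of_mem _ hl')) l hl

/-- the table `H` has at most `n + 1` rows of length at most `m + 1` -/
def G3L (m n : ℕ) (H : List (List ℤ)) : Prop :=
  H.length ≤ n + 1 ∧ ∀ l ∈ H, l.length ≤ m + 1

theorem G3L.dU {m n : ℕ} {H : List (List ℤ)} (h : G3L m n H) : G3L m n (dU H) := by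
  refine ⟨?_, g3_derT_row _ 1 fun l hl => h.2 l (List.mem_of_mem_tail hl)⟩
  unfold Oct.dU
  rw [g3_derT_len, List.length_tail]
  have := h.1
  omega

theorem G3L.dT {m n : ℕ} {H : List (List ℤ)} (h : G3L m n H) : G3L m n (dT H) := by
  refine ⟨?_, fun l hl => ?_⟩
  · unfold Oct.dT
    rw [List.length_map]
    exact h.1
  · unfold Oct.dT at hl
    obtain ⟨l', hl', rfl⟩ := List.mem_map.1 hl
    rw [g3_derP_len, List.length_tail]
    have := h.2 l' hl'
    omega

theorem G3L.smul {m n : ℕ} {H : List (List ℤ)} (h : G3L m n H) (k : ℤ) :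
    G3L m n (H.map (smulP k)) := by
  refine ⟨by rw [List.length_map]; exact h.1, fun l hl => ?_⟩
  obtain ⟨l', hl', rfl⟩ := List.mem_map.1 hl
  unfold smulP
  rw [List.length_map]
  exact h.2 l' hl'

theorem g3_addP_len {m : ℕ} (p q : List ℤ) (hp : p.length ≤ m) (hq : q.length ≤ m) :
    (addP p q).length ≤ m := by
  induction p generalizing q m with
  | nil => simpa [addP] using hq
  | cons a p ih =>
    cases q with
    | nil => simpa [addP] using hp
    | cons b q =>
      change ((a + b) :: addP p q).length ≤ m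
      simp only [List.length_cons] at hp hq ⊢
      have := ih (m := m - 1) q (by omega) (by omega)
      omega

theorem G3L.cons_iff {m n : ℕ} {l : List ℤ} {H : List (List ℤ)} :
    G3L m (n + 1) (l :: H) ↔ l.length ≤ m + 1 ∧ G3L m n H := by
  unfold G3L
  simp only [List.length_cons, List.mem_cons, forall_eq_or_imp]
  constructor
  · rintro ⟨h1, h2, h3⟩
    exact ⟨h2, by omega, h3⟩
  · rintro ⟨h1, h2, h3⟩
    exact ⟨by omega, h1, h3⟩

theorem g3_addT_len {n : ℕ} (p q : List (List ℤ)) (hp : p.length ≤ n) (hq : q.length ≤ n) :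
    (addT p q).length ≤ n := by
  induction p generalizing q n with
  | nil => simpa [addT] using hq
  | cons a p ih =>
    cases q with
    | nil => simpa [addT] using hp
    | cons b q =>
      change (addP a b :: addT p q).length ≤ n
      simp only [List.length_cons] at hp hq ⊢
      have := ih (n := n - 1) q (by omega) (by omega)
      omega

theorem g3_addT_row {m : ℕ} (p q : List (List ℤ)) (hp : ∀ l ∈ p, l.length ≤ m)
    (hq : ∀ l ∈ q, l.length ≤ m) : ∀ l ∈ addT p q, l.length ≤ m := by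
  induction p generalizing q with
  | nil => simpa [addT] using hq
  | cons a p ih =>
    cases q with
    | nil => simpa [addT] using hp
    | cons b q =>
      intro l hl
      change l ∈ (addP a b :: addT p q) at hl
      rcases List.mem_cons.1 hl with hl | hl
      · rw [hl]
        exact g3_addP_len a b (hp a List.mem_cons_self) (hq b List.mem_cons_self)
      · exact ih q (fun l' hl' => hp l' (List.mem_cons_of_mem _ hl'))
          (fun l' hl' => hq l' (List.mem_cons_of_mem _ hl')) l hl

theorem G3L.add {m n : ℕ} {p q : List (List ℤ)} (hp : G3L m n p) (hq : G3L m n q) :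
    G3L m n (addT p q) :=
  ⟨g3_addT_len p q hp.1 hq.1, g3_addT_row p q hp.2 hq.2⟩

theorem G3L.wT {m n : ℕ} {H : List (List ℤ)} (h : G3L m n H) (o : ℤ) (k : ℕ) :
    G3L m n (wT o k H) := by
  unfold Oct.wT
  refine G3L.add ⟨?_, ?_⟩ ((h.dU.smul _).add (h.smul _))
  · rw [List.length_cons, List.length_map]
    unfold Oct.dU
    rw [g3_derT_len, List.length_tail]
    have := h.1
    omega
  · intro l hl
    rcases List.mem_cons.1 hl with hl | hl
    · rw [hl]; exact Nat.zero_le _
    · exact (h.dU.smul 2).2 l hl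

theorem G3L.atT {m n : ℕ} {H : List (List ℤ)} (h : G3L m n H) (a : ℤ) : G3L 0 n (atT H a) := by
  unfold Oct.atT
  refine ⟨by rw [List.length_map]; exact h.1, fun l hl => ?_⟩
  obtain ⟨l', hl', rfl⟩ := List.mem_map.1 hl
  simp

/-! ## the theorem -/

theorem g3_size {B m m' n N : ℕ} {H : List (List ℤ)} {A t u : ℕ} (hm : m' ≤ m)
    (hL : G3L m' n H) (hN : absT H t u ≤ N * A) (h : 2 ^ (m + n) * (N * A + 1) < 2 ^ (B - 1))
    (hB : 1 ≤ B) (hu : 1 ≤ u) (ht : 1 ≤ t) : sizeOK B m' n H t u = true := by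
  unfold sizeOK
  simp only [Bool.and_eq_true, decide_eq_true_eq, List.all_eq_true]
  refine ⟨⟨⟨⟨⟨hL.1, hL.2⟩, ?_⟩, hB⟩, hu⟩, ht⟩
  refine lt_of_le_of_lt ?_ h
  exact Nat.mul_le_mul (Nat.pow_le_pow_right (by norm_num) (by omega)) (by omega)

theorem ctxG_sizes {B m n : ℕ} {ch : Chart} {G : List (List ℤ)} {tm um : ℕ}
    (h : ctxG B m n ch G tm um = true) :
    sizeOK B m n G tm um = true ∧ sizeOK B m n (dU G) tm um = true ∧
    sizeOK B m n (dT G) tm um = true ∧ (∀ k ≤ 16, sizeOK B m n (wT ch.o k G) tm um = true) ∧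
    (∀ a : ℕ, a ≤ tm → sizeOK B 0 n (atT G (a : ℤ)) 1 um = true ∧
      sizeOK B 0 n (dU (dU (atT G (a : ℤ)))) 1 um = true ∧
      ∀ k ≤ 16, ∀ k' ≤ 16, sizeOK B 0 n (wT ch.o k' (wT ch.o k (atT G (a : ℤ)))) 1 um = true) ∧
    0 < ch.al ∧ 0 ≤ ch.o := by
  unfold ctxG at h
  simp only [Bool.and_eq_true, decide_eq_true_eq, List.all_eq_true] at h
  obtain ⟨⟨⟨⟨⟨⟨⟨⟨⟨h1, h2⟩, h3⟩, h4⟩, h5⟩, h6⟩, h7⟩, h8⟩, h9⟩, h10⟩ := h
  have hL : G3L m n G := ⟨h1, h2⟩
  have hN1 : 1 ≤ (4 * n + 16) ^ 2 := Nat.one_le_pow _ _ (by omega)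
  have hNn : 4 * n + 16 ≤ (4 * n + 16) ^ 2 := by
    rw [sq]; exact Nat.le_mul_of_pos_left _ (by omega)
  have hnn : n * n ≤ (4 * n + 16) ^ 2 := by rw [sq]; exact Nat.mul_le_mul (by omega) (by omega)
  have hw : ∀ k ≤ 16, ∀ H : List (List ℤ), ∀ t, H.length ≤ n + 1 →
      absT (wT ch.o k H) t um ≤ (4 * n + 16) * absT H t um := fun k hk H t hH =>
    (g3_wT_abs t um ch.o k h9 h10 hH).trans (Nat.mul_le_mul_right _ (by omega))
  refine ⟨?_, ?_, ?_, ?_, ?_, h8, h9⟩
  · exact g3_size le_rfl hL (Nat.le_mul_of_pos_left _ hN1) h3 h4 h5 h6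
  · exact g3_size le_rfl hL.dU ((g3_dU_abs tm um h5 h1).trans
      (Nat.mul_le_mul_right _ (by omega))) h3 h4 h5 h6
  · exact g3_size le_rfl hL.dT ((g3_dT_abs tm um h6 h2).trans
      (Nat.mul_le_mul_right _ h7)) h3 h4 h5 h6
  · intro k hk
    exact g3_size le_rfl (hL.wT _ _) ((hw k hk G tm h1).trans
      (Nat.mul_le_mul_right _ hNn)) h3 h4 h5 h6
  · intro a ha
    have hA := hL.atT (a : ℤ)
    have hAb := g3_atT_abs G um ha
    refine ⟨?_, ?_, ?_⟩
    · exact g3_size (Nat.zero_le _) hA (hAb.trans (Nat.le_mul_of_pos_left _ hN1)) h3 h4 h5 le_rfl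
    · refine g3_size (Nat.zero_le _) hA.dU.dU ?_ h3 h4 h5 le_rfl
      calc absT (dU (dU (atT G (a : ℤ)))) 1 um ≤ n * absT (dU (atT G (a : ℤ))) 1 um :=
            g3_dU_abs 1 um h5 hA.dU.1
        _ ≤ n * (n * absT (atT G (a : ℤ)) 1 um) :=
            Nat.mul_le_mul_left _ (g3_dU_abs 1 um h5 hA.1)
        _ = (n * n) * absT (atT G (a : ℤ)) 1 um := by ring
        _ ≤ (4 * n + 16) ^ 2 * absT G tm um := Nat.mul_le_mul hnn hAb
    · intro k hk k' hk'
      refine g3_size (Nat.zero_le _) ((hA.wT _ _).wT _ _) ?_ h3 h4 h5 le_rfl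
      calc absT (wT ch.o k' (wT ch.o k (atT G (a : ℤ)))) 1 um
          ≤ (4 * n + 16) * absT (wT ch.o k (atT G (a : ℤ))) 1 um := hw k' hk' _ 1 (hA.wT _ _).1
        _ ≤ (4 * n + 16) * ((4 * n + 16) * absT (atT G (a : ℤ)) 1 um) :=
            Nat.mul_le_mul_left _ (hw k hk _ 1 hA.1)
        _ = (4 * n + 16) ^ 2 * absT (atT G (a : ℤ)) 1 um := by ring
        _ ≤ (4 * n + 16) ^ 2 * absT G tm um := Nat.mul_le_mul_left _ hAb

end Oct
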